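import Pool.Agent.E8helper4.FV.Stm

/-!
# FV: pieces A4 (Liouville) and C6 (real identities)
-/

set_option autoImplicit false

open Complex MeasureTheory Metric Set Filter Topology ComplexConjugate

namespace Pool.Agent.E8helper55.FV

open Pool.Agent.E8helper4.FV

theorem ne_cob : ∀ᶠ α : ℂ in Bornology.cobounded ℂ, α ≠ 0 := by
  have e : ∀ᶠ β : ℂ in Bornology.cobounded ℂ, 0 < ‖β‖ :=
    tendsto_norm_cobounded_atTop.eventually_gt_atTop 0
  filter_upwards [e] with β hβ
  exact norm_pos_iff.1 hβ

theorem a4 : A4 := by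
  intro a c f L n ha hd hL hs
  have h1 : Tendsto f (Bornology.cobounded ℂ) (𝓝 0) := by
    have h2 := hL.mul (tendsto_inv₀_cobounded : Tendsto (fun x : ℂ => x⁻¹) (Bornology.cobounded ℂ) (𝓝 0))
    rw [mul_zero] at h2
    refine h2.congr' ?_
    filter_upwards [ne_cob] with α hα
    field_simp
  have h4 : Tendsto (fun α : ℂ => -(a : ℂ) / conj α) (𝓝[≠] 0) (Bornology.cobounded ℂ) := by
    have e1 : Tendsto (fun α : ℂ => conj α) (𝓝[≠] 0) (𝓝[≠] 0) := by
      rw [tendsto_nhdsWithin_iff]
      constructor
      · have : Continuous (fun α : ℂ => conj α) := continuous_conj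
        have h := (this.tendsto 0).mono_left (nhdsWithin_le_nhds (s := {0}ᶜ))
        simpa using h
      · filter_upwards [self_mem_nhdsWithin] with α hα
        simpa using hα
    have e2 : Tendsto (fun α : ℂ => (conj α)⁻¹) (𝓝[≠] 0) (Bornology.cobounded ℂ) :=
      tendsto_inv₀_nhdsNE_zero.comp e1
    have ha' : -(a : ℂ) ≠ 0 := by
      simpa using ha.ne'
    have e3 := (tendsto_mul_left_cobounded ha').comp e2
    refine e3.congr fun α => ?_
    simp only [Function.comp_apply]
    rw [div_eq_mul_inv]
  have h5 : Tendsto (fun β : ℂ => (c : ℂ) / β ^ n * f β) (Bornology.cobounded ℂ) (𝓝 0) := by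
    have e1 : Tendsto (fun β : ℂ => |c| * ‖f β‖) (Bornology.cobounded ℂ) (𝓝 0) := by
      have := (h1.norm).const_mul |c|
      simpa using this
    refine squeeze_zero_norm' ?_ e1
    have e2 : ∀ᶠ β : ℂ in Bornology.cobounded ℂ, 1 ≤ ‖β‖ :=
      tendsto_norm_cobounded_atTop.eventually_ge_atTop 1
    filter_upwards [e2] with β hβ
    rw [norm_mul, norm_div, norm_pow, Complex.norm_real, Real.norm_eq_abs]
    gcongr
    exact div_le_self (abs_nonneg _) (one_le_pow₀ hβ)
  have h3 : Tendsto f (𝓝[≠] 0) (𝓝 0) := by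
    have e1 := h5.comp h4
    have e2 : Tendsto (fun α : ℂ => conj (f α)) (𝓝[≠] 0) (𝓝 0) := by
      refine e1.congr' ?_
      filter_upwards [self_mem_nhdsWithin] with α hα
      rw [hs α hα]
      rfl
    have e3 := (continuous_conj.tendsto 0).comp e2
    simp only [map_zero] at e3
    refine e3.congr fun α => ?_
    simp only [Function.comp_apply, Complex.conj_conj]
  set g : ℂ → ℂ := Function.update f 0 0 with hg
  have hgf : ∀ α, α ≠ 0 → g α = f α := fun α hα => by
    rw [hg, Function.update_of_ne hα]
  have hg0 : g 0 = 0 := by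
    rw [hg, Function.update_self]
  have hgc : ContinuousAt g 0 := by
    rw [continuousAt_iff_punctured_nhds, hg0]
    refine h3.congr' ?_
    filter_upwards [self_mem_nhdsWithin] with α hα
    exact (hgf α hα).symm
  have hgd : Differentiable ℂ g := by
    rw [← differentiableOn_univ]
    refine (Complex.differentiableOn_compl_singleton_and_continuousAt_iff (c := 0) univ_mem).1 ⟨?_, hgc⟩
    refine DifferentiableOn.congr (f := f) ?_ ?_
    · exact hd.mono fun x hx => by simpa using hx.2
    · intro x hx
      exact hgf x (by simpa using hx.2)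
  have hgt : Tendsto g (cocompact ℂ) (𝓝 0) := by
    rw [← Metric.cobounded_eq_cocompact]
    refine h1.congr' ?_
    filter_upwards [ne_cob] with α hα
    exact (hgf α hα).symm
  have hgz := hgd.eq_const_of_tendsto_cocompact hgt
  have hz : ∀ α : ℂ, α ≠ 0 → f α = 0 := fun α hα => by
    rw [← hgf α hα, hgz]
    rfl
  refine ⟨hz, ?_⟩
  have h6 : Tendsto (fun α : ℂ => α * f α) (Bornology.cobounded ℂ) (𝓝 0) := by
    refine (tendsto_const_nhds (x := (0 : ℂ))).congr' ?_
    filter_upwards [ne_cob] with α hα
    rw [hz α hα, mul_zero]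
  exact tendsto_nhds_unique hL h6

theorem hasDerivAt_re {f : ℝ → ℂ} {f' : ℂ} {s : ℝ} (h : HasDerivAt f f' s) :
    HasDerivAt (fun s => (f s).re) f'.re s :=
  (Complex.reCLM.hasFDerivAt (x := f s)).comp_hasDerivAt s h

theorem hasDerivAt_expI (s : ℝ) :
    HasDerivAt (fun s : ℝ => exp (-((s : ℂ) * I))) (exp (-((s : ℂ) * I)) * -I) s := by
  have h1 : HasDerivAt (fun s : ℝ => -((s : ℂ) * I)) (-I) s := by
    have := ((Complex.ofRealCLM.hasDerivAt (x := s)).mul_const I).fun_neg
    simpa using this
  exact h1.cexp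

theorem exp_neg_mul (s : ℝ) : exp (-((s : ℂ) * I)) * exp ((s : ℂ) * I) = 1 := by
  rw [← Complex.exp_add]
  simp

theorem c6 : C6 := by
  intro ρ z hc
  have d1 : ∀ s : ℝ, HasDerivAt (fun s : ℝ => exp (-((s : ℂ) * I)) * z s)
      (-(I * exp (-((s : ℂ) * I)) * z s) + ρ s) s := by
    intro s
    refine ((hasDerivAt_expI s).mul (hc.der s)).congr_deriv ?_
    linear_combination (ρ s : ℂ) * exp_neg_mul s
  have hzc : Continuous z := continuous_iff_continuousAt.2 fun s => (hc.der s).continuousAt
  refine ⟨?_, ?_, ?_⟩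
  · intro s
    have h := hasDerivAt_re ((d1 s).const_mul I)
    have e : (I * (-(I * exp (-((s : ℂ) * I)) * z s) + (ρ s : ℂ))).re = (exp (-((s : ℂ) * I)) * z s).re := by
      have : I * (-(I * exp (-((s : ℂ) * I)) * z s) + (ρ s : ℂ)) = exp (-((s : ℂ) * I)) * z s + (ρ s : ℂ) * I := by
        linear_combination (-(exp (-((s : ℂ) * I)) * z s)) * I_sq
      rw [this]
      simp
    rw [e] at h
    refine h.congr_of_eventuallyEq (Eventually.of_forall fun t => ?_)
    show (I * exp (-((t : ℂ) * I)) * z t).re = _
    rw [mul_assoc]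
  · intro s
    have h := hasDerivAt_re (d1 s)
    refine h.congr_deriv ?_
    rw [Complex.add_re, Complex.neg_re, Complex.ofReal_re]
    ring
  · intro h1 h2
    have e3 : ∀ s : ℝ, exp (-(2 * (s : ℂ) * I)) * exp (-((s : ℂ) * I)) =
        (Real.cos (3 * s) : ℂ) - (Real.sin (3 * s) : ℂ) * I := by
      intro s
      rw [← Complex.exp_add]
      have : -(2 * (s : ℂ) * I) + -((s : ℂ) * I) = ((-(3 * s) : ℝ) : ℂ) * I := by
        push_cast
        ring
      rw [this, Complex.exp_mul_I, ← Complex.ofReal_cos, ← Complex.ofReal_sin, Real.cos_neg, Real.sin_neg]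
      push_cast
      ring
    have e2 : ∀ s : ℝ, exp (-(2 * (s : ℂ) * I)) =
        (Real.cos (2 * s) : ℂ) - (Real.sin (2 * s) : ℂ) * I := by
      intro s
      have : -(2 * (s : ℂ) * I) = ((-(2 * s) : ℝ) : ℂ) * I := by
        push_cast
        ring
      rw [this, Complex.exp_mul_I, ← Complex.ofReal_cos, ← Complex.ofReal_sin, Real.cos_neg, Real.sin_neg]
      push_cast
      ring
    -- a complex integral of `A - B i` being zero
    have key : ∀ A B : ℝ → ℝ, Continuous A → Continuous B →
        ∫ s in (0 : ℝ)..(2 * Real.pi), ((A s : ℂ) - (B s : ℂ) * I) = 0 →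
        ∫ s in (0 : ℝ)..(2 * Real.pi), A s = 0 ∧ ∫ s in (0 : ℝ)..(2 * Real.pi), B s = 0 := by
      intro A B hA hB h
      have iA : IntervalIntegrable (fun s => (A s : ℂ)) volume 0 (2 * Real.pi) :=
        (Complex.continuous_ofReal.comp hA).intervalIntegrable _ _
      have iB : IntervalIntegrable (fun s => (B s : ℂ) * I) volume 0 (2 * Real.pi) :=
        ((Complex.continuous_ofReal.comp hB).mul continuous_const).intervalIntegrable _ _
      rw [intervalIntegral.integral_sub iA iB, intervalIntegral.integral_mul_const,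
        intervalIntegral.integral_ofReal, intervalIntegral.integral_ofReal] at h
      have r := congrArg Complex.re h
      have i := congrArg Complex.im h
      simp at r i
      exact ⟨r, i⟩
    have hcos3 : Continuous (fun s : ℝ => ρ s * Real.cos (3 * s)) := by
      have := hc.cont
      fun_prop
    have hsin3 : Continuous (fun s : ℝ => ρ s * Real.sin (3 * s)) := by
      have := hc.cont
      fun_prop
    have k1 := key _ _ hcos3 hsin3 (by
      rw [← h1]
      apply intervalIntegral.integral_congr
      intro s _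
      simp only [dX]
      have := e3 s
      push_cast at this ⊢
      linear_combination (-(ρ s : ℂ)) * this)
    have hcc : Continuous (fun s : ℝ => (exp (-((s : ℂ) * I)) * z s).re) := by
      have : Continuous (fun s : ℝ => exp (-((s : ℂ) * I)) * z s) := by fun_prop
      exact Complex.continuous_re.comp this
    have hcos2 : Continuous (fun s : ℝ => (exp (-((s : ℂ) * I)) * z s).re * ρ s * Real.cos (2 * s)) := by
      have := hc.cont
      fun_prop
    have hsin2 : Continuous (fun s : ℝ => (exp (-((s : ℂ) * I)) * z s).re * ρ s * Real.sin (2 * s)) := by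
      have := hc.cont
      fun_prop
    -- the integral of `conj z d conj z`
    have dcz : ∀ s : ℝ, HasDerivAt (fun s : ℝ => conj (z s)) ((ρ s : ℂ) * exp (-((s : ℂ) * I))) s := by
      intro s
      have h := (Complex.conjCLE.toContinuousLinearMap.hasFDerivAt (x := z s)).comp_hasDerivAt s (hc.der s)
      refine h.congr_deriv ?_
      show conj ((ρ s : ℂ) * exp ((s : ℂ) * I)) = _
      rw [map_mul, Complex.conj_ofReal, ← Complex.exp_conj]
      simp
    have hint : ∫ s in (0 : ℝ)..(2 * Real.pi), conj (z s) * ((ρ s : ℂ) * exp (-((s : ℂ) * I))) = 0 := by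
      have d2 : ∀ s ∈ uIcc (0 : ℝ) (2 * Real.pi), HasDerivAt (fun s : ℝ => conj (z s) ^ 2 / 2)
          (conj (z s) * ((ρ s : ℂ) * exp (-((s : ℂ) * I)))) s := by
        intro s _
        refine (((dcz s).fun_pow 2).div_const 2).congr_deriv ?_
        push_cast
        ring
      rw [intervalIntegral.integral_eq_sub_of_hasDerivAt d2]
      · have := hc.perz 0
        rw [zero_add] at this
        rw [this, sub_self]
      · apply Continuous.intervalIntegrable
        have := hc.cont
        have hz' : Continuous (fun s : ℝ => conj (z s)) := continuous_conj.comp hzc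
        fun_prop
    have k2 := key _ _ hcos2 hsin2 (by
      have hz' : Continuous (fun s : ℝ => conj (z s)) := continuous_conj.comp hzc
      have c1 : Continuous (fun s : ℝ => z s * exp (-(2 * (s : ℂ) * I)) * dX ρ s) := by
        unfold dX
        have := hc.cont
        fun_prop
      have c2 : Continuous (fun s : ℝ => conj (z s) * ((ρ s : ℂ) * exp (-((s : ℂ) * I)))) := by
        have := hc.cont
        fun_prop
      have hsum : ∫ s in (0 : ℝ)..(2 * Real.pi), (1 / 2 : ℂ) * (z s * exp (-(2 * (s : ℂ) * I)) * dX ρ s +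
          conj (z s) * ((ρ s : ℂ) * exp (-((s : ℂ) * I)))) = 0 := by
        rw [intervalIntegral.integral_const_mul, intervalIntegral.integral_add
          (c1.intervalIntegrable _ _) (c2.intervalIntegrable _ _), h2, hint]
        ring
      rw [← hsum]
      apply intervalIntegral.integral_congr
      intro s _
      simp only [dX]
      have hre : (((exp (-((s : ℂ) * I)) * z s).re : ℝ) : ℂ) =
          (exp (-((s : ℂ) * I)) * z s + exp ((s : ℂ) * I) * conj (z s)) / 2 := by
        rw [Complex.re_eq_add_conj, map_mul, ← Complex.exp_conj]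
        simp
      have h4 := e2 s
      have h5 := exp_neg_mul s
      have h6 : exp (-(2 * (s : ℂ) * I)) = exp (-((s : ℂ) * I)) * exp (-((s : ℂ) * I)) := by
        rw [← Complex.exp_add]
        congr 1
        ring
      have h7 : (((exp (-((s : ℂ) * I)) * z s).re * ρ s * Real.cos (2 * s) : ℝ) : ℂ) -
          (((exp (-((s : ℂ) * I)) * z s).re * ρ s * Real.sin (2 * s) : ℝ) : ℂ) * I =
          (((exp (-((s : ℂ) * I)) * z s).re : ℝ) : ℂ) * (ρ s : ℂ) * exp (-(2 * (s : ℂ) * I)) := by
        rw [h4]
        push_cast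
        ring
      rw [h7, hre, h6]
      linear_combination (1 / 2 : ℂ) * (ρ s : ℂ) * conj (z s) * exp (-((s : ℂ) * I)) * h5)
    exact ⟨k1.1, k1.2, k2.1, k2.2⟩

end Pool.Agent.E8helper55.FV
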